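import Pool.Agent.T6.H64.MS.Mat
import Pool.Agent.H958R2.NLT.Mem

/-!
# MS and GI are in NP
-/

set_option autoImplicit false

namespace Pool.Agent.NPC.H64MS

open Pool.Agent.T6.H64.MS Pool.Agent.H958R2 Pool.Agent.NPC.H958NLT

theorem ms_iff (M : List (List Bool)) : MS M ↔ (∀ r ∈ M, r.length = M.length) ∧
    ∃ σ : Equiv.Perm (Fin M.length), MSV (fun i j : Fin M.length => ent M i j) σ := by
  constructor
  · intro h
    have h1 : ∀ r ∈ M, r.length = M.length := by
      obtain ⟨n, N, rfl, -⟩ := h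
      intro r hr
      unfold T6.H64.MS.rows at hr ⊢
      rw [List.mem_ofFn] at hr
      obtain ⟨i, rfl⟩ := hr
      simp
    refine ⟨h1, ?_⟩
    rw [eq_ofFn h1] at h
    exact (ms_ofFn _).1 h
  · rintro ⟨h1, h⟩
    rw [eq_ofFn h1]
    exact (ms_ofFn _).2 h

/-- The verifier. -/
def chkMS (p : List (List Bool) × List ℕ) : Bool :=
  (p.1.all fun r => decide (r.length = p.1.length)) &&
  (List.range p.1.length).all fun v =>
    decide (p.2.getD v 0 < p.1.length) &&
    (List.range p.1.length).all fun u =>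
      (decide (u = v) || !decide (p.2.getD u 0 = p.2.getD v 0)) &&
      !(xor (ent p.1 (p.2.getD u 0) v) (ent p.1 (p.2.getD v 0) u))

theorem poly_chkMS : Poly chkMS := by
  unfold chkMS ent
  have h : ∀ {α : Type} [TEnc α] {f : α → List (List Bool)}, Poly f →
      Poly (fun a => List.range (f a).length) := fun hf => Poly.range_length hf
  refine Poly.and (by fun_prop) ?_
  refine Poly.all (h (Poly.fst Poly.id)) ?_
  refine Poly.and (by fun_prop) ?_
  refine Poly.all (h (Poly.fst (Poly.fst Poly.id))) ?_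
  fun_prop

theorem xor_false : ∀ a b : Bool, (xor a b = false) ↔ a = b := by decide

theorem chkMS_iff (M : List (List Bool)) (w : List ℕ) : chkMS (M, w) = true ↔
    (∀ r ∈ M, r.length = M.length) ∧ ∀ v < M.length, w.getD v 0 < M.length ∧
      ∀ u < M.length, (u = v ∨ w.getD u 0 ≠ w.getD v 0) ∧
        ent M (w.getD u 0) v = ent M (w.getD v 0) u := by
  unfold chkMS
  simp only [Bool.and_eq_true, List.all_eq_true, decide_eq_true_eq, List.mem_range,
    Bool.not_eq_true', Bool.or_eq_true, decide_eq_false_iff_not, ne_eq, xor_false]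

theorem sz_perm {n s : ℕ} (hn : n ≤ s) (σ : Fin n → Fin n) :
    sz (List.ofFn fun i => (σ i).1) ≤
      (Polynomial.X * (Polynomial.C 4 * Polynomial.X + Polynomial.C 2) + Polynomial.C 1 :
        Polynomial ℕ).eval s := by
  have h2 : ∀ a ∈ List.ofFn (fun i => (σ i).1), sz a ≤ 4 * s + 1 := by
    intro a ha
    rw [List.mem_ofFn] at ha
    obtain ⟨i, rfl⟩ := ha
    have h3 := sz_nat_le (σ i).1
    have h4 : Nat.size (σ i).1 ≤ (σ i).1 := by
      rw [Nat.size_le]
      exact Nat.lt_two_pow_self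
    have h5 := (σ i).2
    omega
  have h7 := sz_le_length_mul _ _ h2
  rw [List.length_ofFn] at h7
  simp only [Polynomial.eval_add, Polynomial.eval_mul, Polynomial.eval_X, Polynomial.eval_C]
  refine h7.trans ?_
  gcongr

theorem getD_ofFn {n : ℕ} (σ : Fin n → Fin n) (k : ℕ) (hk : k < n) :
    (List.ofFn fun i => (σ i).1).getD k 0 = (σ ⟨k, hk⟩).1 := by
  rw [List.getD_eq_getElem _ _ (by simpa using hk)]
  simp

/-- MS is in `NP`. -/
theorem inNPP_MS : InNPP MS := by
  refine inNPP_of (β := List ℕ) poly_chkMS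
    (Polynomial.X * (Polynomial.C 4 * Polynomial.X + Polynomial.C 2) + Polynomial.C 1) ?_
  intro M
  rw [ms_iff]
  constructor
  · rintro ⟨h1, σ, hσ⟩
    refine ⟨List.ofFn fun i => (σ i).1, sz_perm (length_le_sz M) σ, ?_⟩
    rw [chkMS_iff]
    refine ⟨h1, fun v hv => ?_⟩
    rw [getD_ofFn _ v hv]
    refine ⟨(σ ⟨v, hv⟩).2, fun u hu => ?_⟩
    rw [getD_ofFn _ u hu]
    refine ⟨?_, hσ ⟨u, hu⟩ ⟨v, hv⟩⟩
    by_cases huv : u = v
    · exact Or.inl huv
    · refine Or.inr fun h => huv ?_
      have h2 := σ.injective (Fin.ext h)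
      simpa using h2
  · rintro ⟨w, -, hw⟩
    rw [chkMS_iff] at hw
    obtain ⟨h1, h2⟩ := hw
    have hinj : Function.Injective (fun v : Fin M.length =>
        (⟨w.getD v 0, (h2 v v.2).1⟩ : Fin M.length)) := by
      intro u v huv
      rcases ((h2 v v.2).2 u u.2).1 with h | h
      · exact Fin.ext h
      · exact absurd (congrArg Fin.val huv) h
    refine ⟨h1, Equiv.ofBijective _ ((Finite.injective_iff_bijective).1 hinj), ?_⟩
    intro u v
    exact ((h2 v v.2).2 u u.2).2

/-! ### Graph isomorphism -/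

theorem rows_eq_ofFn {n : ℕ} {A : Fin n → Fin n → Bool} {M : List (List Bool)}
    (h : T6.H64.MS.rows A = M) : M.length = n ∧ (∀ r ∈ M, r.length = M.length) ∧
      ∀ i j : Fin n, ent M i j = A i j := by
  subst h
  have hn : (T6.H64.MS.rows A).length = n := by simp [T6.H64.MS.rows]
  refine ⟨hn, ?_, ?_⟩
  · intro r hr
    rw [hn]
    unfold T6.H64.MS.rows at hr
    rw [List.mem_ofFn] at hr
    obtain ⟨i, rfl⟩ := hr
    simp
  · intro i j
    have e1 : (T6.H64.MS.rows A).getD i [] = List.ofFn fun j => A i j := by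
      unfold T6.H64.MS.rows
      rw [List.getD_eq_getElem _ _ (by simp), List.getElem_ofFn]
    unfold ent
    rw [e1, List.getD_eq_getElem _ _ (by simp), List.getElem_ofFn]

/-- the graph of a symmetric matrix -/
def graphOf (n : ℕ) (f : ℕ → ℕ → Bool) (h4 : ∀ i < n, f i i = false)
    (h5 : ∀ i < n, ∀ j < n, f i j = f j i) : SimpleGraph (Fin n) where
  Adj i j := f i j = true
  symm := ⟨fun i j h => by rw [h5 _ j.2 _ i.2]; exact h⟩
  loopless := ⟨fun i h => by rw [h4 _ i.2] at h; exact absurd h (by decide)⟩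

theorem adj_eq {n : ℕ} (G : SimpleGraph (Fin n)) {M : List (List Bool)} (hM : M.length = n)
    (hr : ∀ r ∈ M, r.length = n) (h : ∀ i j : Fin n, G.Adj i j ↔ ent M i j = true) :
    adj G = M := by
  subst hM
  unfold adj T6.H64.MS.rows
  apply List.ext_getElem
  · simp
  · intro i hi hi'
    simp only [List.getElem_ofFn]
    apply List.ext_getElem
    · rw [List.length_ofFn, hr _ (List.getElem_mem _)]
    · intro j hj hj'
      simp only [List.getElem_ofFn]
      have e1 : ent M i j = M[i][j] := by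
        unfold ent
        rw [List.getD_eq_getElem _ _ hi', List.getD_eq_getElem _ _ hj']
      rw [← e1, Bool.eq_iff_iff]
      simp only [decide_eq_true_eq]
      exact h ⟨i, hi'⟩ ⟨j, by rw [← hr _ (List.getElem_mem hi')]; exact hj'⟩

theorem gi_iff (A B : List (List Bool)) : GI (A, B) ↔
    (∀ r ∈ A, r.length = A.length) ∧ (∀ r ∈ B, r.length = A.length) ∧ B.length = A.length ∧
    (∀ i < A.length, ent A i i = false) ∧
    (∀ i < A.length, ∀ j < A.length, ent A i j = ent A j i) ∧
    ∃ σ : Equiv.Perm (Fin A.length), ∀ i j : Fin A.length, ent A i j = ent B (σ i) (σ j) := by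
  classical
  constructor
  · rintro ⟨n, m, G, H, hG, hH, ⟨φ⟩⟩
    have hnm : n = m := by
      have := Fintype.card_congr φ.toEquiv
      simpa using this
    subst hnm
    obtain ⟨hn, h1, h2⟩ := rows_eq_ofFn hG
    obtain ⟨hm, h3, h4⟩ := rows_eq_ofFn hH
    simp only at hn h1 h2 hm h3 h4
    subst hn
    refine ⟨h1, ?_, hm, ?_, ?_, φ.toEquiv, ?_⟩
    · intro r hr
      rw [h3 r hr, hm]
    · intro i hi
      have := h2 ⟨i, hi⟩ ⟨i, hi⟩
      simpa using this
    · intro i hi j hj
      have e1 := h2 ⟨i, hi⟩ ⟨j, hj⟩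
      have e2 := h2 ⟨j, hj⟩ ⟨i, hi⟩
      simp only at e1 e2
      rw [e1, e2, decide_eq_decide]
      exact G.adj_comm _ _
    · intro i j
      rw [h2, h4, decide_eq_decide]
      exact φ.map_rel_iff.symm
  · rintro ⟨h1, h2, h3, h4, h5, σ, hσ⟩
    have hsB : ∀ i j : Fin A.length, ent B i j = ent B j i := by
      intro i j
      have e1 := hσ (σ.symm i) (σ.symm j)
      have e2 := hσ (σ.symm j) (σ.symm i)
      rw [σ.apply_symm_apply, σ.apply_symm_apply] at e1 e2
      rw [← e1, ← e2]
      exact h5 _ (σ.symm i).2 _ (σ.symm j).2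
    have hiB : ∀ i : Fin A.length, ent B i i = false := by
      intro i
      have e1 := hσ (σ.symm i) (σ.symm i)
      rw [σ.apply_symm_apply] at e1
      rw [← e1]
      exact h4 _ (σ.symm i).2
    refine ⟨A.length, A.length, graphOf A.length (ent A) h4 h5,
      graphOf A.length (ent B) (fun i hi => hiB ⟨i, hi⟩) (fun i hi j hj => hsB ⟨i, hi⟩ ⟨j, hj⟩),
      adj_eq _ rfl h1 fun _ _ => Iff.rfl, adj_eq _ h3 h2 fun _ _ => Iff.rfl, ⟨⟨σ, ?_⟩⟩⟩
    intro i j
    change ent B (σ i) (σ j) = true ↔ ent A i j = true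
    rw [hσ i j]

/-- The verifier. -/
def chkGI (p : (List (List Bool) × List (List Bool)) × List ℕ) : Bool :=
  (p.1.1.all fun r => decide (r.length = p.1.1.length)) &&
  ((p.1.2.all fun r => decide (r.length = p.1.1.length)) &&
  (decide (p.1.2.length = p.1.1.length) &&
  (List.range p.1.1.length).all fun v =>
    decide (p.2.getD v 0 < p.1.1.length) && (!(ent p.1.1 v v) &&
    (List.range p.1.1.length).all fun u =>
      (decide (u = v) || !decide (p.2.getD u 0 = p.2.getD v 0)) &&
      (!(xor (ent p.1.1 u v) (ent p.1.1 v u)) &&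
      !(xor (ent p.1.1 u v) (ent p.1.2 (p.2.getD u 0) (p.2.getD v 0)))))))

theorem poly_chkGI : Poly chkGI := by
  unfold chkGI ent
  have h : ∀ {α : Type} [TEnc α] {f : α → List (List Bool)}, Poly f →
      Poly (fun a => List.range (f a).length) := fun hf => Poly.range_length hf
  refine Poly.and (by fun_prop) (Poly.and (by fun_prop) (Poly.and (by fun_prop) ?_))
  refine Poly.all (h (Poly.fst (Poly.fst Poly.id))) ?_
  refine Poly.and (by fun_prop) (Poly.and (by fun_prop) ?_)
  refine Poly.all (h (Poly.fst (Poly.fst (Poly.fst Poly.id)))) ?_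
  fun_prop

theorem chkGI_iff (A B : List (List Bool)) (w : List ℕ) : chkGI ((A, B), w) = true ↔
    (∀ r ∈ A, r.length = A.length) ∧ (∀ r ∈ B, r.length = A.length) ∧ B.length = A.length ∧
    ∀ v < A.length, w.getD v 0 < A.length ∧ ent A v v = false ∧
      ∀ u < A.length, (u = v ∨ w.getD u 0 ≠ w.getD v 0) ∧ ent A u v = ent A v u ∧
        ent A u v = ent B (w.getD u 0) (w.getD v 0) := by
  unfold chkGI
  simp only [Bool.and_eq_true, List.all_eq_true, decide_eq_true_eq, List.mem_range,
    Bool.not_eq_true', Bool.or_eq_true, decide_eq_false_iff_not, ne_eq, xor_false]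

/-- GI is in `NP`. -/
theorem inNPP_GI : InNPP GI := by
  refine inNPP_of (β := List ℕ) poly_chkGI
    (Polynomial.X * (Polynomial.C 4 * Polynomial.X + Polynomial.C 2) + Polynomial.C 1) ?_
  rintro ⟨A, B⟩
  rw [gi_iff]
  constructor
  · rintro ⟨h1, h2, h3, h4, h5, σ, hσ⟩
    refine ⟨List.ofFn fun i => (σ i).1, sz_perm ?_ σ, ?_⟩
    · have := length_le_sz A
      rw [sz_pair]
      omega
    rw [chkGI_iff]
    refine ⟨h1, h2, h3, fun v hv => ?_⟩
    rw [getD_ofFn _ v hv]
    refine ⟨(σ ⟨v, hv⟩).2, h4 v hv, fun u hu => ?_⟩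
    rw [getD_ofFn _ u hu]
    refine ⟨?_, h5 u hu v hv, hσ ⟨u, hu⟩ ⟨v, hv⟩⟩
    by_cases huv : u = v
    · exact Or.inl huv
    · refine Or.inr fun h => huv ?_
      have h2 := σ.injective (Fin.ext h)
      simpa using h2
  · rintro ⟨w, -, hw⟩
    rw [chkGI_iff] at hw
    obtain ⟨h1, h2, h3, h4⟩ := hw
    have hinj : Function.Injective (fun v : Fin A.length =>
        (⟨w.getD v 0, (h4 v v.2).1⟩ : Fin A.length)) := by
      intro u v huv
      rcases ((h4 v v.2).2.2 u u.2).1 with h | h
      · exact Fin.ext h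
      · exact absurd (congrArg Fin.val huv) h
    refine ⟨h1, h2, h3, fun i hi => (h4 i hi).2.1, fun i hi j hj => ((h4 j hj).2.2 i hi).2.1,
      Equiv.ofBijective _ ((Finite.injective_iff_bijective).1 hinj), ?_⟩
    intro u v
    exact ((h4 v v.2).2.2 u u.2).2.2

end Pool.Agent.NPC.H64MS
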