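import Pool.Agent.T6.H64.MS.Red
import Pool.Agent.H671R2.PolyAuto

/-!
# The reduction is computable in polynomial time
-/

set_option autoImplicit false

namespace Pool.Agent.NPC.H64MS

open Pool.Agent.T6.H64.MS Pool.Agent.R544 Pool.Agent.H958R2

theorem poly_kl {α : Type} [TEnc α] {f : α → T6.H64.MS.Lab} (hf : Poly f) :
    Poly (fun a => T6.H64.MS.kl (f a)) := by
  unfold T6.H64.MS.kl
  fun_prop

theorem poly_lk {α : Type} [TEnc α] {f g : α → T6.H64.MS.Lab} (hf : Poly f) (hg : Poly g) :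
    Poly (fun a => lk (f a) (g a)) := by
  unfold lk
  fun_prop

theorem poly_gl {α : Type} [TEnc α] {f g : α → T6.H64.MS.Lab} (hf : Poly f) (hg : Poly g) :
    Poly (fun a => T6.H64.MS.gl (f a) (g a)) := by
  have h1 := poly_kl hf
  have h2 := poly_kl hg
  have h3 := poly_lk hf hg
  have h4 : Poly (fun _ : α => T6.H64.MS.TAB) := Poly.const _
  unfold T6.H64.MS.gl
  generalize T6.H64.MS.TAB = tab at *
  fun_prop

theorem poly_copl {α : Type} [TEnc α] {f : α → ℕ} {g : α → ℕ × ℕ × ℕ}
    (hf : Poly f) (hg : Poly g) : Poly (fun a => copl (f a) (g a)) := by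
  unfold copl
  fun_prop

theorem poly_vl : Poly T6.H64.MS.vl := by
  have hl : UPoly (fun φ : N3 => φ.length) := UPoly.length Poly.id
  have h1 : Poly (fun φ : N3 => List.range (nK φ.length)) :=
    UPoly.range (((UPoly.const 33).mul hl).add (UPoly.const 2))
  have h2 : Poly (fun φ : N3 => List.range (nL φ.length)) :=
    UPoly.range (((UPoly.const 40).mul hl).add (UPoly.const 1))
  have h3 : Poly (fun φ : N3 => List.range (3 * φ.length)) :=
    UPoly.range ((UPoly.const 3).mul hl)
  have h4 : Poly (fun φ : N3 => List.range φ.length) := UPoly.range hl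
  have h5 : Poly (fun _ : N3 => List.range 2) := Poly.const _
  have h6 : Poly (fun _ : N3 => List.range 4) := Poly.const _
  have h7 : Poly (fun _ : N3 => (List.range 3) ×ˢ (List.range 4)) := Poly.const _
  have h8 : Poly (fun φ : N3 => φ.zipIdx.flatMap (fun p => copl p.2 p.1)) :=
    Poly.flatMap (F := fun _ (p : (ℕ × ℕ × ℕ) × ℕ) => copl p.2 p.1)
      (Poly.zipIdx Poly.id) (poly_copl (Poly.snd (Poly.snd Poly.id)) (Poly.fst (Poly.snd Poly.id)))
  unfold T6.H64.MS.vl
  generalize (List.range 3) ×ˢ (List.range 4) = l at *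
  fun_prop

theorem poly_red : Poly T6.H64.MS.red := by
  have hv := poly_vl
  unfold T6.H64.MS.red
  exact Poly.map (F := fun φ a => (T6.H64.MS.vl φ).map (T6.H64.MS.gl a)) hv
    (Poly.map (F := fun (p : N3 × T6.H64.MS.Lab) b => T6.H64.MS.gl p.2 b)
      (hv.comp (Poly.fst Poly.id)) (poly_gl (Poly.snd (Poly.fst Poly.id)) (Poly.snd Poly.id)))

/-- MS is NP-hard. -/
theorem hardI_MS : HardI MS :=
  (hardPr_P13.trans (Pr' := fun _ => True) poly_red (fun _ _ => trivial) T6.H64.MS.red_iff).toHardI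

end Pool.Agent.NPC.H64MS
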