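import Pool.Agent.T6.H64.MS.Ext

/-!
# Matrix symmetry under row permutations: the gadgets

Rows and columns are indexed by the same set and fall into classes which the permutation preserves.
A class of two elements is a bit: the permutation exchanges the two elements or not.  The class `lin`
of a clause has the even vectors of length three as rows and the odd vectors as columns: a bijection
compatible with the three bits of the clause exists if and only if the sum of the bits is odd.  The
classes `vx` and `eg` are the vertices and the edges of a square: the bijection is a symmetry of the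
square which is an involution on the vertices.  The rotations by a right angle are not involutions.
They are the symmetries which exchange the two pairs of opposite vertices and the two pairs of
opposite edges.
-/

set_option autoImplicit false

namespace Pool.Agent.T6.H64.MS

/-- even vectors -/
def ev : Fin 4 → Fin 3 → Bool :=
  ![![false, false, false], ![false, true, true], ![true, false, true], ![true, true, false]]

/-- odd vectors -/
def od : Fin 4 → Fin 3 → Bool :=
  ![![true, false, false], ![false, true, false], ![false, false, true], ![true, true, true]]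

/-- parity -/
def par : Fin 4 → Bool := ![false, true, false, true]

/-- incidence of the vertex `a` and the edge `e`, with end points `e` and `e + 1` -/
def inc (a e : Fin 4) : Bool := decide (a = e) || decide (a = e + 1)

/-- Rows and columns. -/
inductive Core (N m : ℕ) : Type
  | var (x : Fin N) (s : Bool)
  | cop (c : Fin m) (i : Fin 3) (s : Bool)
  | lin (c : Fin m) (q : Fin 4)
  | vx (c : Fin m) (k : Fin 3) (a : Fin 4)
  | eg (c : Fin m) (k : Fin 3) (e : Fin 4)
  deriving DecidableEq

open Core

variable {N m : ℕ}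

/-- the class of an element -/
def kc : Core N m → ℕ
  | var x _ => 11 * x.1
  | cop c i _ => 11 * c.1 + 1 + i.1
  | lin c _ => 11 * c.1 + 4
  | vx c k _ => 11 * c.1 + 5 + k.1
  | eg c k _ => 11 * c.1 + 8 + k.1

/-- the matrix; `t c i` is the variable number `i` of the clause `c` -/
def gc (t : Fin m → Fin 3 → Fin N) : Core N m → Core N m → Bool
  | var x s, cop c i r => decide (t c i = x) && (s == r)
  | cop c i r, var x s => decide (t c i = x) && (s == r)
  | lin c q, cop d i s => decide (c = d) && (ev q i == s)
  | cop d i s, lin c q => decide (c = d) && (od q i == s)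
  | vx c k a, vx d l b => decide (c = d) && (decide (k = l) && decide (a = b))
  | vx c k a, eg d l e => decide (c = d) && (decide (k = l) && inc a e)
  | eg d l e, vx c k a => decide (c = d) && (decide (k = l) && inc a e)
  | vx c k a, cop d i s => decide (c = d) && (decide (k = i) && (par a == s))
  | cop d i s, vx c k a => decide (c = d) && (decide (k = i) && (par a == s))
  | eg c k e, cop d i s => decide (c = d) && (decide (k + 1 = i) && (par e == s))
  | cop d i s, eg c k e => decide (c = d) && (decide (k + 1 = i) && (par e == s))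
  | _, _ => false

/-! ### From a permutation to an assignment -/

theorem bool_fun : ∀ f : Bool → Bool, Function.Injective f → ∀ s, f s = xor s (f false) := by
  decide

theorem beq_all : ∀ p q : Bool, (∀ s : Bool, (p == s) = (q == s)) → p = q := by decide

theorem lin_odd : ∀ (p : Fin 4) (b : Fin 3 → Bool), (∀ i, ev p i = xor (od 0 i) (b i)) →
    xor (xor (b 0) (b 1)) (b 2) = true := by decide

theorem sq_false : ∀ r f0 f3 : Fin 4, par r = true → inc r f0 = true → inc r f3 = true →
    (r = 1 → inc 0 f0 = true → par f0 = true → False) ∧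
    (r = 3 → inc 0 f3 = true → par f3 = false → False) := by decide

theorem par_true : ∀ r : Fin 4, par r = true → r = 1 ∨ r = 3 := by decide

theorem edge01 : ∀ f : Fin 4, inc 0 f = true → inc 1 f = true → par f = false := by decide

theorem edge30 : ∀ f : Fin 4, inc 0 f = true → inc 3 f = true → par f = true := by decide

theorem sq_not (ρ ε : Fin 4 → Fin 4) (b b' : Bool) (h1 : ∀ a c, decide (ρ a = c) = decide (ρ c = a))
    (h2 : ∀ a e, inc (ρ a) e = inc a (ε e)) (h3 : ∀ a, par (ρ a) = xor (par a) b)
    (h4 : ∀ e, par (ε e) = xor (par e) b') : (b && b') = false := by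
  cases b
  · rfl
  cases b'
  · rfl
  exfalso
  have h5 : par (ρ 0) = true := by rw [h3]; rfl
  have h6 : ρ (ρ 0) = 0 := by
    have := h1 0 (ρ 0)
    simpa using this.symm
  rcases par_true _ h5 with h7 | h7
  · rw [h7] at h6
    have e1 : inc 0 (ε 0) = true := by rw [← h2, h7]; decide
    have e2 : inc 1 (ε 0) = true := by rw [← h2, h6]; decide
    have e3 := edge01 _ e1 e2
    rw [h4] at e3
    exact absurd e3 (by decide)
  · rw [h7] at h6
    have e1 : inc 0 (ε 3) = true := by rw [← h2, h7]; decide
    have e2 : inc 3 (ε 3) = true := by rw [← h2, h6]; decide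
    have e3 := edge30 _ e1 e2
    rw [h4] at e3
    exact absurd e3 (by decide)

/-- exactly one of three -/
def one (b : Fin 3 → Bool) : Prop := ∃ e : Fin 3, ∀ i, b i = decide (i = e)

instance (b : Fin 3 → Bool) : Decidable (one b) := by unfold one; infer_instance

theorem one_of : ∀ b : Fin 3 → Bool, xor (xor (b 0) (b 1)) (b 2) = true →
    (∀ k, (b k && b (k + 1)) = false) → one b := by decide

/-! ### From an assignment to a permutation -/

/-- the bijection of `lin` -/
def flin (b : Fin 3 → Bool) (q : Fin 4) : Fin 4 :=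
  if b 0 = true then ![0, 3, 2, 1] q else if b 1 = true then ![3, 0, 1, 2] q else ![2, 1, 0, 3] q

/-- the bijection of the vertices -/
def frho (b b' : Bool) : Fin 4 → Fin 4 :=
  if b = true then ![1, 0, 3, 2] else if b' = true then ![0, 3, 2, 1] else ![0, 1, 2, 3]

/-- the bijection of the edges -/
def feps (b b' : Bool) : Fin 4 → Fin 4 :=
  if b = true then ![0, 3, 2, 1] else if b' = true then ![3, 2, 1, 0] else ![0, 1, 2, 3]

theorem flin_spec : ∀ b : Fin 3 → Bool, one b → ∀ q i, ev (flin b q) i = xor (od q i) (b i) := by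
  decide

theorem flin_inj : ∀ b : Fin 3 → Bool, ∀ q r, flin b q = flin b r → q = r := by decide

theorem frho_inj : ∀ b b' : Bool, ∀ q r, frho b b' q = frho b b' r → q = r := by decide

theorem feps_inj : ∀ b b' : Bool, ∀ q r, feps b b' q = feps b b' r → q = r := by decide

theorem frho_invol : ∀ b b' : Bool, ∀ a c, decide (frho b b' a = c) = decide (frho b b' c = a) := by
  decide

theorem finc : ∀ b b' : Bool, (b && b') = false → ∀ a e,
    inc (frho b b' a) e = inc a (feps b b' e) := by decide

theorem frho_par : ∀ b b' : Bool, (b && b') = false → ∀ a,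
    par (frho b b' a) = xor (par a) b := by decide

theorem feps_par : ∀ b b' : Bool, (b && b') = false → ∀ e,
    par (feps b b' e) = xor (par e) b' := by decide

theorem one_not : ∀ b : Fin 3 → Bool, one b → ∀ k, (b k && b (k + 1)) = false := by decide

/-- the permutation -/
def fcore (t : Fin m → Fin 3 → Fin N) (α : Fin N → Bool) : Core N m → Core N m
  | var x s => var x (xor s (α x))
  | cop c i s => cop c i (xor s (α (t c i)))
  | lin c q => lin c (flin (fun i => α (t c i)) q)
  | vx c k a => vx c k (frho (α (t c k)) (α (t c (k + 1))) a)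
  | eg c k e => eg c k (feps (α (t c k)) (α (t c (k + 1))) e)

theorem fcore_inj (t : Fin m → Fin 3 → Fin N) (α : Fin N → Bool) :
    Function.Injective (fcore t α) := by
  rintro (⟨x, s⟩ | ⟨c, i, s⟩ | ⟨c, q⟩ | ⟨c, k, a⟩ | ⟨c, k, e⟩)
    (⟨x', s'⟩ | ⟨c', i', s'⟩ | ⟨c', q'⟩ | ⟨c', k', a'⟩ | ⟨c', k', e'⟩) h <;>
    simp only [fcore, reduceCtorEq, var.injEq, cop.injEq, lin.injEq, vx.injEq, eg.injEq] at h
  · obtain ⟨rfl, h⟩ := h
    rw [Bool.xor_left_inj] at h
    rw [h]
  · obtain ⟨rfl, rfl, h⟩ := h
    rw [Bool.xor_left_inj] at h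
    rw [h]
  · obtain ⟨rfl, h⟩ := h
    rw [flin_inj _ _ _ h]
  · obtain ⟨rfl, rfl, h⟩ := h
    rw [frho_inj _ _ _ _ h]
  · obtain ⟨rfl, rfl, h⟩ := h
    rw [feps_inj _ _ _ _ h]

theorem kc_fcore (t : Fin m → Fin 3 → Fin N) (α : Fin N → Bool) (v : Core N m) :
    kc (fcore t α v) = kc v := by
  rcases v with ⟨x, s⟩ | ⟨c, i, s⟩ | ⟨c, q⟩ | ⟨c, k, a⟩ | ⟨c, k, e⟩ <;> rfl

theorem xor_beq : ∀ s r z : Bool, (xor s z == r) = (xor r z == s) := by decide

theorem xor_beq' : ∀ s r z : Bool, (xor s z == r) = (s == xor r z) := by decide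

theorem xor_beq'' : ∀ s r z : Bool, (s == xor r z) = (xor s z == r) := by decide

theorem fcore_msv (t : Fin m → Fin 3 → Fin N) (α : Fin N → Bool)
    (h : ∀ c, one (fun i => α (t c i))) : MSV (gc t) (fcore t α) := by
  have hn : ∀ c k, (α (t c k) && α (t c (k + 1))) = false := fun c k => one_not _ (h c) k
  rintro (⟨x, s⟩ | ⟨c, i, s⟩ | ⟨c, q⟩ | ⟨c, k, a⟩ | ⟨c, k, e⟩)
    (⟨x', s'⟩ | ⟨c', i', s'⟩ | ⟨c', q'⟩ | ⟨c', k', a'⟩ | ⟨c', k', e'⟩) <;>
    simp only [fcore, gc]
  · by_cases hx : t c' i' = x
    · subst hx
      simp [xor_beq']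
    · simp [hx]
  · by_cases hx : t c i = x'
    · subst hx
      simp [xor_beq']
    · simp [hx]
  · by_cases hx : c' = c
    · subst hx
      rw [flin_spec _ (h c')]
      simp [xor_beq'']
    · simp [hx]
  · by_cases hx : c = c' ∧ k' = i
    · obtain ⟨rfl, rfl⟩ := hx
      rw [frho_par _ _ (hn _ _)]
      simp [xor_beq'']
    · by_cases h1 : c = c'
      · have : ¬ (k' = i) := fun h' => hx ⟨h1, h'⟩
        simp [this]
      · have h1' : ¬ (c' = c) := fun h' => h1 h'.symm
        simp [h1']
  · by_cases hx : c = c' ∧ k' + 1 = i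
    · obtain ⟨rfl, rfl⟩ := hx
      rw [feps_par _ _ (hn _ _)]
      simp [xor_beq'']
    · by_cases h1 : c = c'
      · have : ¬ (k' + 1 = i) := fun h' => hx ⟨h1, h'⟩
        simp [this]
      · have h1' : ¬ (c' = c) := fun h' => h1 h'.symm
        simp [h1']
  · by_cases hx : c = c'
    · subst hx
      rw [flin_spec _ (h c)]
      simp [xor_beq'']
    · have h1' : ¬ (c' = c) := fun h' => hx h'.symm
      simp [hx, h1']
  · by_cases hx : c = c' ∧ k = i'
    · obtain ⟨rfl, rfl⟩ := hx
      rw [frho_par _ _ (hn _ _)]
      simp [xor_beq'']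
    · by_cases h1 : c = c'
      · have : ¬ (k = i') := fun h' => hx ⟨h1, h'⟩
        simp [this]
      · simp [h1]
  · by_cases hx : c = c' ∧ k = k'
    · obtain ⟨rfl, rfl⟩ := hx
      simp only [decide_true, Bool.true_and]
      exact frho_invol _ _ _ _
    · by_cases h1 : c = c'
      · have : ¬ (k = k') := fun h' => hx ⟨h1, h'⟩
        have h2 : ¬ (k' = k) := fun h' => hx ⟨h1, h'.symm⟩
        simp [this, h2]
      · have h1' : ¬ (c' = c) := fun h' => h1 h'.symm
        simp [h1, h1']
  · by_cases hx : c = c' ∧ k = k'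
    · obtain ⟨rfl, rfl⟩ := hx
      simp only [decide_true, Bool.true_and]
      exact finc _ _ (hn _ _) _ _
    · by_cases h1 : c = c'
      · have : ¬ (k = k') := fun h' => hx ⟨h1, h'⟩
        simp [this]
      · simp [h1]
  · by_cases hx : c = c' ∧ k + 1 = i'
    · obtain ⟨rfl, rfl⟩ := hx
      rw [feps_par _ _ (hn _ _)]
      simp [xor_beq'']
    · by_cases h1 : c = c'
      · have : ¬ (k + 1 = i') := fun h' => hx ⟨h1, h'⟩
        simp [this]
      · simp [h1]
  · by_cases hx : c' = c ∧ k' = k
    · obtain ⟨rfl, rfl⟩ := hx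
      simp only [decide_true, Bool.true_and]
      exact (finc _ _ (hn _ _) _ _).symm
    · by_cases h1 : c' = c
      · have : ¬ (k' = k) := fun h' => hx ⟨h1, h'⟩
        simp [this]
      · simp [h1]

/-! ### The equivalence -/

theorem core_iff (t : Fin m → Fin 3 → Fin N) :
    (∃ σ : Equiv.Perm (Core N m), (∀ v, kc (σ v) = kc v) ∧ MSV (gc t) σ) ↔
      ∃ α : Fin N → Bool, ∀ c, one (fun i => α (t c i)) := by
  constructor
  · rintro ⟨σ, hk, hσ⟩
    have hvar : ∀ x s, ∃ s', σ (var x s) = var x s' := by
      intro x s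
      have h := hk (var x s)
      rcases h' : σ (var x s) with ⟨y, s'⟩ | ⟨c, i, s'⟩ | ⟨c, q⟩ | ⟨c, k, a⟩ | ⟨c, k, e⟩ <;>
        rw [h'] at h <;> simp only [kc] at h
      · obtain rfl : y = x := Fin.ext (by omega)
        exact ⟨s', rfl⟩
      all_goals omega
    have hcop : ∀ c i s, ∃ s', σ (cop c i s) = cop c i s' := by
      intro c i s
      have h := hk (cop c i s)
      rcases h' : σ (cop c i s) with ⟨y, s'⟩ | ⟨d, j, s'⟩ | ⟨d, q⟩ | ⟨d, k, a⟩ | ⟨d, k, e⟩ <;>
        rw [h'] at h <;> simp only [kc] at h
      · omega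
      · obtain rfl : d = c := Fin.ext (by omega)
        obtain rfl : j = i := Fin.ext (by omega)
        exact ⟨s', rfl⟩
      all_goals omega
    have hlin : ∀ c q, ∃ p, σ (lin c q) = lin c p := by
      intro c q
      have h := hk (lin c q)
      rcases h' : σ (lin c q) with ⟨y, s'⟩ | ⟨d, j, s'⟩ | ⟨d, p⟩ | ⟨d, k, a⟩ | ⟨d, k, e⟩ <;>
        rw [h'] at h <;> simp only [kc] at h
      · omega
      · omega
      · obtain rfl : d = c := Fin.ext (by omega)
        exact ⟨p, rfl⟩
      all_goals omega
    have hvx : ∀ c k a, ∃ p, σ (vx c k a) = vx c k p := by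
      intro c k a
      have h := hk (vx c k a)
      rcases h' : σ (vx c k a) with ⟨y, s'⟩ | ⟨d, j, s'⟩ | ⟨d, p⟩ | ⟨d, l, p⟩ | ⟨d, l, e⟩ <;>
        rw [h'] at h <;> simp only [kc] at h
      · omega
      · omega
      · omega
      · obtain rfl : d = c := Fin.ext (by omega)
        obtain rfl : l = k := Fin.ext (by omega)
        exact ⟨p, rfl⟩
      · omega
    have heg : ∀ c k e, ∃ p, σ (eg c k e) = eg c k p := by
      intro c k e
      have h := hk (eg c k e)
      rcases h' : σ (eg c k e) with ⟨y, s'⟩ | ⟨d, j, s'⟩ | ⟨d, p⟩ | ⟨d, l, p⟩ | ⟨d, l, p⟩ <;>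
        rw [h'] at h <;> simp only [kc] at h
      · omega
      · omega
      · omega
      · omega
      · obtain rfl : d = c := Fin.ext (by omega)
        obtain rfl : l = k := Fin.ext (by omega)
        exact ⟨p, rfl⟩
    choose fv hfv using hvar
    choose fc hfc using hcop
    choose fl hfl using hlin
    choose fx hfx using hvx
    choose fe hfe using heg
    have hfv' : ∀ x s, fv x s = xor s (fv x false) := fun x => bool_fun (fv x) fun s r hsr => by
      have h : σ (var x s) = σ (var x r) := by rw [hfv, hfv, hsr]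
      have := σ.injective h
      rw [var.injEq] at this
      exact this.2
    have hfc' : ∀ c i s, fc c i s = xor s (fc c i false) := fun c i =>
      bool_fun (fc c i) fun s r hsr => by
        have h : σ (cop c i s) = σ (cop c i r) := by rw [hfc, hfc, hsr]
        have := σ.injective h
        rw [cop.injEq] at this
        exact this.2.2
    have h1 : ∀ c i, fc c i false = fv (t c i) false := by
      intro c i
      have h := hσ (cop c i false) (var (t c i) true)
      rw [hfc, hfv] at h
      simp only [gc, decide_true, Bool.true_and] at h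
      rw [hfv' (t c i) true] at h
      revert h
      generalize fc c i false = p
      generalize fv (t c i) false = q
      revert p q
      decide
    refine ⟨fun x => fv x false, fun c => one_of _ ?_ ?_⟩
    · simp only [← h1]
      refine lin_odd (fl c 0) (fun i => fc c i false) fun i => ?_
      refine beq_all _ _ fun s => ?_
      have h := hσ (lin c 0) (cop c i s)
      rw [hfl, hfc] at h
      simp only [gc, decide_true, Bool.true_and] at h
      rw [h, hfc' c i s]
      exact (xor_beq' _ _ _).symm
    · intro k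
      simp only [← h1]
      refine sq_not (fx c k) (fe c k) _ _ ?_ ?_ ?_ ?_
      · intro a b
        have h := hσ (vx c k a) (vx c k b)
        rw [hfx, hfx] at h
        simpa only [gc, decide_true, Bool.true_and] using h
      · intro a e
        have h := hσ (vx c k a) (eg c k e)
        rw [hfx, hfe] at h
        simpa only [gc, decide_true, Bool.true_and] using h
      · intro a
        refine beq_all _ _ fun s => ?_
        have h := hσ (vx c k a) (cop c k s)
        rw [hfx, hfc] at h
        simp only [gc, decide_true, Bool.true_and] at h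
        rw [h, hfc' c k s]
        exact (xor_beq' _ _ _).symm
      · intro e
        refine beq_all _ _ fun s => ?_
        have h := hσ (eg c k e) (cop c (k + 1) s)
        rw [hfe, hfc] at h
        simp only [gc, decide_true, Bool.true_and] at h
        rw [h, hfc' c (k + 1) s]
        exact (xor_beq' _ _ _).symm
  · rintro ⟨α, hα⟩
    have : Finite (Core N m) := by
      refine Finite.of_injective (fun v : Core N m => (match v with
        | var x s => Sum.inl (x, s)
        | cop c i s => Sum.inr (Sum.inl (c, i, s))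
        | lin c q => Sum.inr (Sum.inr (Sum.inl (c, q)))
        | vx c k a => Sum.inr (Sum.inr (Sum.inr (Sum.inl (c, k, a))))
        | eg c k a => Sum.inr (Sum.inr (Sum.inr (Sum.inr (c, k, a)))) :
          (Fin N × Bool) ⊕ ((Fin m × Fin 3 × Bool) ⊕ ((Fin m × Fin 4) ⊕
            ((Fin m × Fin 3 × Fin 4) ⊕ (Fin m × Fin 3 × Fin 4)))))) ?_
      rintro (⟨x, s⟩ | ⟨c, i, s⟩ | ⟨c, q⟩ | ⟨c, k, a⟩ | ⟨c, k, e⟩)
        (⟨x', s'⟩ | ⟨c', i', s'⟩ | ⟨c', q'⟩ | ⟨c', k', a'⟩ | ⟨c', k', e'⟩) h <;>
        simp_all
    exact ⟨Equiv.ofBijective (fcore t α) ((Finite.injective_iff_bijective).1 (fcore_inj t α)),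
      kc_fcore t α, fcore_msv t α hα⟩

end Pool.Agent.T6.H64.MS
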