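import Pool.Agent.NPC.Defs

/-!
# The problems MS (matrix symmetry) and GI (graph isomorphism)
-/

set_option autoImplicit false

namespace Pool.Agent.T6.H64.MS

/-- A matrix as the list of its rows. -/
def rows {n m : ℕ} (A : Fin n → Fin m → Bool) : List (List Bool) :=
  List.ofFn fun i => List.ofFn fun j => A i j

/-- The matrix with entries `0` and `1` given by a table of truth values. -/
def mat01 {n : ℕ} (A : Fin n → Fin n → Bool) : Matrix (Fin n) (Fin n) ℤ :=
  Matrix.of fun i j => if A i j = true then 1 else 0

/-- There is a permutation matrix `P` with `(P A)ᵀ = P A`. -/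
def Symmetrizable {n : ℕ} (A : Matrix (Fin n) (Fin n) ℤ) : Prop :=
  ∃ σ : Equiv.Perm (Fin n), (σ.permMatrix ℤ * A).transpose = σ.permMatrix ℤ * A

/-- The matrix symmetry problem: given (the rows of) an `n × n` matrix `A` with entries in `{0, 1}`,
is there a permutation matrix `P` with `(P A)ᵀ = P A`? -/
def MS (M : List (List Bool)) : Prop :=
  ∃ (n : ℕ) (A : Fin n → Fin n → Bool), rows A = M ∧ Symmetrizable (mat01 A)

open Classical in
/-- The adjacency matrix of a graph, as the list of its rows. -/
noncomputable def adj {n : ℕ} (G : SimpleGraph (Fin n)) : List (List Bool) :=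
  rows fun i j => decide (G.Adj i j)

/-- The graph isomorphism problem: given (the adjacency matrices of) two graphs, are they
isomorphic? -/
def GI (p : List (List Bool) × List (List Bool)) : Prop :=
  ∃ (n m : ℕ) (G : SimpleGraph (Fin n)) (H : SimpleGraph (Fin m)),
    adj G = p.1 ∧ adj H = p.2 ∧ Nonempty (G ≃g H)

end Pool.Agent.T6.H64.MS
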