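import Mathlib

/-!
# Matrix symmetry under row permutations: separating the classes by degrees
-/

set_option autoImplicit false

namespace Pool.Agent.T6.H64.MS

/-- Permuting the rows of `B` by `σ` gives a symmetric matrix. -/
def MSV {V : Type} (B : V → V → Bool) (σ : V → V) : Prop := ∀ a b, B (σ a) b = B (σ b) a

/-- The matrix `g` with `K * L` additional rows and columns that mark the classes. -/
def ext {C : Type} (K L : ℕ) (κ : C → ℕ) (g : C → C → Bool) :
    (Fin K × Fin L) ⊕ C → (Fin K × Fin L) ⊕ C → Bool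
  | Sum.inl _, Sum.inl _ => true
  | Sum.inl p, Sum.inr v => decide (p.1.1 ≤ κ v)
  | Sum.inr u, Sum.inl p => decide (p.1.1 ≤ κ u)
  | Sum.inr u, Sum.inr v => g u v

section

variable {V : Type} [Fintype V]

/-- the sum of a row -/
def rd (B : V → V → Bool) (u : V) : ℕ := ∑ v, if B u v = true then 1 else 0

/-- the sum of a column -/
def cd (B : V → V → Bool) (v : V) : ℕ := ∑ u, if B u v = true then 1 else 0

theorem rd_eq_cd {B : V → V → Bool} {σ : Equiv.Perm V} (h : MSV B σ) (v : V) :
    rd B (σ v) = cd B v := by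
  unfold rd cd
  rw [← Equiv.sum_comp σ (fun u => if B u v = true then 1 else 0)]
  exact Finset.sum_congr rfl fun w _ => by rw [h v w]

end

section

variable {C : Type} [Fintype C] {K L : ℕ} {κ : C → ℕ} {g : C → C → Bool}

theorem sum_pads {k : ℕ} (hk : k + 1 ≤ K) :
    (∑ p : Fin K × Fin L, if decide (p.1.1 ≤ k) = true then 1 else 0) = (k + 1) * L := by
  rw [Fintype.sum_prod_type]
  simp only [decide_eq_true_eq, Finset.sum_const, Finset.card_univ, Fintype.card_fin, smul_eq_mul,
    mul_ite, mul_one, mul_zero]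
  rw [← Finset.sum_filter, Finset.sum_const, smul_eq_mul]
  congr 1
  have h1 : ((Finset.univ.filter fun a : Fin K => a.1 ≤ k).map Fin.valEmbedding) =
      Finset.range (k + 1) := by
    ext i
    simp only [Finset.mem_map, Finset.mem_filter, Finset.mem_univ, true_and, Fin.valEmbedding_apply,
      Finset.mem_range]
    constructor
    · rintro ⟨a, ha, rfl⟩
      omega
    · intro hi
      exact ⟨⟨i, by omega⟩, by simp only; omega, rfl⟩
  rw [← Finset.card_map Fin.valEmbedding, h1, Finset.card_range]

theorem sum_le_card (f : C → Prop) [DecidablePred f] :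
    (∑ u : C, if f u then 1 else 0) ≤ Fintype.card C := by
  calc (∑ u : C, if f u then 1 else 0) ≤ ∑ _u : C, 1 := Finset.sum_le_sum fun u _ => by
        split_ifs <;> omega
    _ = Fintype.card C := by simp

theorem cd_core (hK : ∀ v, κ v + 2 ≤ K) (v : C) :
    (κ v + 1) * L ≤ cd (ext K L κ g) (Sum.inr v) ∧
      cd (ext K L κ g) (Sum.inr v) ≤ (κ v + 1) * L + Fintype.card C := by
  unfold cd
  rw [Fintype.sum_sum_type]
  have h1 : (∑ p : Fin K × Fin L, if ext K L κ g (Sum.inl p) (Sum.inr v) = true then 1 else 0) =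
      (κ v + 1) * L := sum_pads (by have := hK v; omega)
  rw [h1]
  have h2 := sum_le_card (fun u : C => ext K L κ g (Sum.inr u) (Sum.inr v) = true)
  omega

theorem rd_core (hK : ∀ v, κ v + 2 ≤ K) (u : C) :
    (κ u + 1) * L ≤ rd (ext K L κ g) (Sum.inr u) ∧
      rd (ext K L κ g) (Sum.inr u) ≤ (κ u + 1) * L + Fintype.card C := by
  unfold rd
  rw [Fintype.sum_sum_type]
  have h1 : (∑ p : Fin K × Fin L, if ext K L κ g (Sum.inr u) (Sum.inl p) = true then 1 else 0) =
      (κ u + 1) * L := sum_pads (by have := hK u; omega)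
  rw [h1]
  have h2 := sum_le_card (fun v : C => ext K L κ g (Sum.inr u) (Sum.inr v) = true)
  omega

theorem rd_pad (p : Fin K × Fin L) : K * L ≤ rd (ext K L κ g) (Sum.inl p) := by
  unfold rd
  rw [Fintype.sum_sum_type]
  have h1 : (∑ q : Fin K × Fin L, if ext K L κ g (Sum.inl p) (Sum.inl q) = true then 1 else 0) =
      K * L := by
    simp [ext]
  rw [h1]
  omega

/-- The additional rows and columns force the permutation to preserve the classes. -/
theorem ext_iff (hL : Fintype.card C < L) (hK : ∀ v, κ v + 2 ≤ K) :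
    (∃ σ : Equiv.Perm ((Fin K × Fin L) ⊕ C), MSV (ext K L κ g) σ) ↔
      ∃ σ : Equiv.Perm C, (∀ v, κ (σ v) = κ v) ∧ MSV g σ := by
  constructor
  · rintro ⟨σ, hσ⟩
    have h1 : ∀ v : C, ∃ u : C, σ (Sum.inr v) = Sum.inr u ∧ κ u = κ v := by
      intro v
      have h2 := rd_eq_cd hσ (Sum.inr v)
      have h3 := cd_core (g := g) (L := L) hK v
      rcases h4 : σ (Sum.inr v) with p | u
      · exfalso
        rw [h4] at h2
        have h5 := rd_pad (κ := κ) (g := g) p
        have h6 : (κ v + 2) * L ≤ K * L := Nat.mul_le_mul_right _ (hK v)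
        have h7 : (κ v + 2) * L = (κ v + 1) * L + L := by ring
        omega
      · rw [h4] at h2
        have h5 := rd_core (g := g) (L := L) hK u
        refine ⟨u, rfl, ?_⟩
        by_contra hne
        rcases Nat.lt_or_gt_of_ne hne with h | h
        · have h6 : (κ u + 1 + 1) * L ≤ (κ v + 1) * L := Nat.mul_le_mul_right _ (by omega)
          have h7 : (κ u + 1 + 1) * L = (κ u + 1) * L + L := by ring
          omega
        · have h6 : (κ v + 1 + 1) * L ≤ (κ u + 1) * L := Nat.mul_le_mul_right _ (by omega)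
          have h7 : (κ v + 1 + 1) * L = (κ v + 1) * L + L := by ring
          omega
    choose f hf hκ using h1
    have hinj : Function.Injective f := by
      intro a b hab
      have h2 : σ (Sum.inr a) = σ (Sum.inr b) := by rw [hf, hf, hab]
      exact Sum.inr_injective (σ.injective h2)
    refine ⟨Equiv.ofBijective f ((Finite.injective_iff_bijective).1 hinj), hκ, ?_⟩
    intro a b
    have h2 := hσ (Sum.inr a) (Sum.inr b)
    rw [hf, hf] at h2
    exact h2
  · rintro ⟨σ, hκ, hσ⟩
    refine ⟨Equiv.sumCongr (Equiv.refl _) σ, ?_⟩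
    rintro (p | a) (q | b)
    · rfl
    · simp only [Equiv.sumCongr_apply, Equiv.coe_refl, Sum.map_inl, Sum.map_inr, id, ext, hκ]
    · simp only [Equiv.sumCongr_apply, Equiv.coe_refl, Sum.map_inl, Sum.map_inr, id, ext, hκ]
    · exact hσ a b

end

end Pool.Agent.T6.H64.MS
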