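import Pool.Agent.T6.H64.MS.Core

/-!
# Matrix symmetry: labels of the rows and columns
-/

set_option autoImplicit false

namespace Pool.Agent.T6.H64.MS

/-- Labels: kind, index, position, element, variable. -/
abbrev Lab : Type := ℕ × ℕ × ℕ × ℕ × ℕ

/-- Elements up to the indices of variables and clauses. -/
inductive Loc : Type
  | var (s : Bool)
  | cop (i : Fin 3) (s : Bool)
  | lin (q : Fin 4)
  | vx (k : Fin 3) (a : Fin 4)
  | eg (k : Fin 3) (e : Fin 4)
  deriving DecidableEq, Fintype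

/-- kind, position, element -/
def code : Loc → ℕ × ℕ × ℕ
  | .var s => (0, 0, s.toNat)
  | .cop i s => (1, i.1, s.toNat)
  | .lin q => (4, 0, q.1)
  | .vx k a => (5, k.1, a.1)
  | .eg k e => (8, k.1, e.1)

theorem toNat_inj : ∀ a b : Bool, a.toNat = b.toNat → a = b := by decide

theorem code_injective : Function.Injective code := by
  rintro (s | ⟨i, s⟩ | q | ⟨k, a⟩ | ⟨k, e⟩) (s' | ⟨i', s'⟩ | q' | ⟨k', a'⟩ | ⟨k', e'⟩) h <;>
    simp only [code, Prod.mk.injEq] at h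
  all_goals first
    | (exfalso; omega)
    | skip
  · rw [toNat_inj _ _ h.2.2]
  · rw [toNat_inj _ _ h.2.2, Fin.ext h.2.1]
  · rw [Fin.ext h.2.2]
  · rw [Fin.ext h.2.1, Fin.ext h.2.2]
  · rw [Fin.ext h.2.1, Fin.ext h.2.2]

/-- the local matrix -/
def gloc : Loc → Loc → Bool
  | .var s, .cop _ r => s == r
  | .cop _ r, .var s => s == r
  | .lin q, .cop i s => ev q i == s
  | .cop i s, .lin q => od q i == s
  | .vx k a, .vx l b => decide (k = l) && decide (a = b)
  | .vx k a, .eg l e => decide (k = l) && inc a e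
  | .eg l e, .vx k a => decide (k = l) && inc a e
  | .vx k a, .cop i s => decide (k = i) && (par a == s)
  | .cop i s, .vx k a => decide (k = i) && (par a == s)
  | .eg k e, .cop i s => decide (k + 1 = i) && (par e == s)
  | .cop i s, .eg k e => decide (k + 1 = i) && (par e == s)
  | _, _ => false

/-- The table of the local matrix. -/
noncomputable def TAB : List ((ℕ × ℕ × ℕ) × (ℕ × ℕ × ℕ)) :=
  ((Finset.univ : Finset (Loc × Loc)).filter fun p => gloc p.1 p.2 = true).toList.map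
    fun p => (code p.1, code p.2)

theorem mem_TAB (l l' : Loc) : (code l, code l') ∈ TAB ↔ gloc l l' = true := by
  unfold TAB
  rw [List.mem_map]
  constructor
  · rintro ⟨p, hp, h⟩
    rw [Prod.mk.injEq] at h
    rw [← code_injective h.1, ← code_injective h.2]
    simpa using hp
  · intro h
    exact ⟨(l, l'), by simpa using h, rfl⟩

/-- class of a label -/
def kl (a : Lab) : ℕ := 11 * a.2.1 + a.1 + a.2.2.1

/-- the indices of two labels fit -/
def lk (a v : Lab) : Bool :=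
  bif decide (a.1 = 0) then decide (a.2.1 = v.2.2.2.2)
  else bif decide (v.1 = 0) then decide (v.2.1 = a.2.2.2.2)
  else decide (a.2.1 = v.2.1)

open Classical in
/-- the matrix, on labels -/
noncomputable def gl (a v : Lab) : Bool :=
  bif decide (a.1 = 20) then (bif decide (v.1 = 20) then true else decide (a.2.1 ≤ kl v))
  else bif decide (v.1 = 20) then decide (v.2.1 ≤ kl a)
  else (lk a v && decide (((a.1, a.2.2.1, a.2.2.2.1), (v.1, v.2.2.1, v.2.2.2.1)) ∈ TAB))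

variable {N m K L : ℕ}

/-- the label of an element -/
def lab (t : Fin m → Fin 3 → Fin N) : (Fin K × Fin L) ⊕ Core N m → Lab
  | Sum.inl (i, j) => (20, i.1, 0, j.1, 0)
  | Sum.inr (.var x s) => (0, x.1, 0, s.toNat, 0)
  | Sum.inr (.cop c i s) => (1, c.1, i.1, s.toNat, (t c i).1)
  | Sum.inr (.lin c q) => (4, c.1, 0, q.1, 0)
  | Sum.inr (.vx c k a) => (5, c.1, k.1, a.1, 0)
  | Sum.inr (.eg c k e) => (8, c.1, k.1, e.1, 0)

theorem lab_injective (t : Fin m → Fin 3 → Fin N) :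
    Function.Injective (lab (K := K) (L := L) t) := by
  rintro (⟨i, j⟩ | ⟨x, s⟩ | ⟨c, i, s⟩ | ⟨c, q⟩ | ⟨c, k, a⟩ | ⟨c, k, e⟩)
    (⟨i', j'⟩ | ⟨x', s'⟩ | ⟨c', i', s'⟩ | ⟨c', q'⟩ | ⟨c', k', a'⟩ | ⟨c', k', e'⟩) h <;>
    simp only [lab, Prod.mk.injEq] at h
  all_goals first
    | (exfalso; omega)
    | skip
  · rw [Fin.ext h.2.1, Fin.ext h.2.2.2.1]
  · rw [Fin.ext h.2.1, toNat_inj _ _ h.2.2.2.1]
  · rw [Fin.ext h.2.1, Fin.ext h.2.2.1, toNat_inj _ _ h.2.2.2.1]
  · rw [Fin.ext h.2.1, Fin.ext h.2.2.2.1]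
  · rw [Fin.ext h.2.1, Fin.ext h.2.2.1, Fin.ext h.2.2.2.1]
  · rw [Fin.ext h.2.1, Fin.ext h.2.2.1, Fin.ext h.2.2.2.1]

/-- the local part of an element -/
def loc : Core N m → Loc
  | .var _ s => .var s
  | .cop _ i s => .cop i s
  | .lin _ q => .lin q
  | .vx _ k a => .vx k a
  | .eg _ k e => .eg k e

theorem lab_code (t : Fin m → Fin 3 → Fin N) (v : Core N m) :
    ((lab (K := K) (L := L) t (Sum.inr v)).1, (lab (K := K) (L := L) t (Sum.inr v)).2.2.1,
      (lab (K := K) (L := L) t (Sum.inr v)).2.2.2.1) = code (loc v) := by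
  rcases v with ⟨x, s⟩ | ⟨c, i, s⟩ | ⟨c, q⟩ | ⟨c, k, a⟩ | ⟨c, k, e⟩ <;> rfl

theorem kl_lab (t : Fin m → Fin 3 → Fin N) (v : Core N m) :
    kl (lab (K := K) (L := L) t (Sum.inr v)) = kc v := by
  rcases v with ⟨x, s⟩ | ⟨c, i, s⟩ | ⟨c, q⟩ | ⟨c, k, a⟩ | ⟨c, k, e⟩ <;> simp [kl, lab, kc]

theorem kind_ne (t : Fin m → Fin 3 → Fin N) (v : Core N m) :
    (lab (K := K) (L := L) t (Sum.inr v)).1 ≠ 20 := by
  rcases v with ⟨x, s⟩ | ⟨c, i, s⟩ | ⟨c, q⟩ | ⟨c, k, a⟩ | ⟨c, k, e⟩ <;> simp [lab]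

theorem core_lab (t : Fin m → Fin 3 → Fin N) (u v : Core N m) :
    (lk (lab (K := K) (L := L) t (Sum.inr u)) (lab (K := K) (L := L) t (Sum.inr v)) &&
      gloc (loc u) (loc v)) = gc t u v := by
  rcases u with ⟨x, s⟩ | ⟨c, i, s⟩ | ⟨c, q⟩ | ⟨c, k, a⟩ | ⟨c, k, e⟩ <;>
    rcases v with ⟨x', s'⟩ | ⟨c', i', s'⟩ | ⟨c', q'⟩ | ⟨c', k', a'⟩ | ⟨c', k', e'⟩ <;>
    simp [lk, lab, loc, gloc, gc, Fin.ext_iff, eq_comm] <;>
    (rw [Bool.eq_iff_iff]; simp only [Bool.and_eq_true, decide_eq_true_eq, beq_iff_eq])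

theorem gl_lab (t : Fin m → Fin 3 → Fin N) (u v : (Fin K × Fin L) ⊕ Core N m) :
    gl (lab t u) (lab t v) = ext K L kc (gc t) u v := by
  rcases u with ⟨i, j⟩ | u <;> rcases v with ⟨i', j'⟩ | v
  · simp [gl, lab, ext]
  · have h := kind_ne (K := K) (L := L) t v
    unfold gl
    rw [kl_lab]
    simp only [h, decide_false, cond_false, ext]
    simp only [lab, decide_true, cond_true]
    rw [Bool.eq_iff_iff]
    simp only [decide_eq_true_eq]
  · have h := kind_ne (K := K) (L := L) t u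
    unfold gl
    rw [kl_lab]
    simp only [h, decide_false, cond_false, ext]
    simp only [lab, decide_true, cond_true]
    rw [Bool.eq_iff_iff]
    simp only [decide_eq_true_eq]
  · have h := kind_ne (K := K) (L := L) t u
    have h' := kind_ne (K := K) (L := L) t v
    unfold gl
    rw [lab_code, lab_code]
    simp only [h, h', decide_false, cond_false, ext]
    rw [← core_lab (K := K) (L := L) t u v]
    congr 1
    rw [Bool.eq_iff_iff, decide_eq_true_eq]
    exact mem_TAB _ _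

end Pool.Agent.T6.H64.MS
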