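import Pool.Agent.T6.H64.MS.Defs
import Pool.Agent.T6.H64.MS.Ext
import Pool.Agent.H958R2.NLT.Mat

/-!
# From matrices given by labels to MS
-/

set_option autoImplicit false

namespace Pool.Agent.T6.H64.MS

open Pool.Agent.H958R2

theorem permMatrix_mul_apply {n : ℕ} (σ : Equiv.Perm (Fin n)) (A : Matrix (Fin n) (Fin n) ℤ)
    (i j : Fin n) : (σ.permMatrix ℤ * A) i j = A (σ i) j := by
  have h : σ.permMatrix ℤ * A = A.submatrix σ id := PEquiv.toMatrix_toPEquiv_mul σ A
  rw [h]
  rfl

theorem symm_iff {n : ℕ} (A : Fin n → Fin n → Bool) :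
    Symmetrizable (mat01 A) ↔ ∃ σ : Equiv.Perm (Fin n), MSV A σ := by
  unfold Symmetrizable
  refine exists_congr fun σ => ?_
  constructor
  · intro h i j
    have h1 := congrFun (congrFun h j) i
    rw [Matrix.transpose_apply, permMatrix_mul_apply, permMatrix_mul_apply] at h1
    simp only [mat01, Matrix.of_apply] at h1
    cases h2 : A (σ i) j <;> cases h3 : A (σ j) i <;> simp_all
  · intro h
    ext i j
    rw [Matrix.transpose_apply, permMatrix_mul_apply, permMatrix_mul_apply]
    simp only [mat01, Matrix.of_apply]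
    rw [h i j]

theorem ms_ofFn {n : ℕ} (B : Fin n → Fin n → Bool) :
    MS (List.ofFn fun i => List.ofFn fun j => B i j) ↔ ∃ σ : Equiv.Perm (Fin n), MSV B σ := by
  constructor
  · rintro ⟨n', N, hN, hS⟩
    have hn : n' = n := by
      have := congrArg List.length hN
      simpa [rows] using this
    subst hn
    unfold rows at hN
    have hB : N = B := ofFn2_inj hN
    subst hB
    exact (symm_iff _).1 hS
  · intro h
    exact ⟨n, B, rfl, (symm_iff _).2 h⟩

theorem ms_list {V Λ : Type} [Fintype V] (vs : List Λ) (c : V → Λ)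
    (hc : Function.Injective c) (hmem : ∀ x, c x ∈ vs) (hlen : vs.length = Fintype.card V)
    (G : Λ → Λ → Bool) :
    MS (vs.map fun a => vs.map (G a)) ↔
      ∃ σ : Equiv.Perm V, MSV (fun a b => G (c a) (c b)) σ := by
  obtain ⟨e, he⟩ := exists_equiv' vs c hc hmem hlen
  have h1 : (vs.map fun a => vs.map (G a)) =
      List.ofFn fun i : Fin vs.length => List.ofFn fun j : Fin vs.length => G vs[i] vs[j] := by
    apply List.ext_getElem
    · simp
    · intro i h1 h2
      simp only [List.getElem_ofFn, List.getElem_map]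
      apply List.ext_getElem
      · simp
      · intro j h3 h4
        simp
  have h2 : (fun i j : Fin vs.length => G vs[i] vs[j]) = fun i j => G (c (e i)) (c (e j)) := by
    funext i j
    rw [he, he]
  rw [h1, ms_ofFn, h2]
  constructor
  · rintro ⟨σ, hσ⟩
    refine ⟨(e.symm.trans σ).trans e, ?_⟩
    intro u v
    have h := hσ (e.symm u) (e.symm v)
    simpa using h
  · rintro ⟨σ, hσ⟩
    refine ⟨(e.trans σ).trans e.symm, ?_⟩
    intro u v
    have h := hσ (e u) (e v)
    simpa using h

end Pool.Agent.T6.H64.MS
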