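import Pool.Agent.T6.H64.MS.Lab
import Pool.Agent.T6.H64.MS.Mat
import Pool.Agent.R544.P13

/-!
# The reduction from monotone exactly-one-in-three satisfiability to MS
-/

set_option autoImplicit false

namespace Pool.Agent.T6.H64.MS

open Pool.Agent.NPC Pool.Agent.H958R2 Pool.Agent.R544

/-- labels of the bits of a clause -/
def copl (c : ℕ) (cl : ℕ × ℕ × ℕ) : List Lab :=
  [(1, c, 0, 0, cl.1), (1, c, 0, 1, cl.1), (1, c, 1, 0, cl.2.1), (1, c, 1, 1, cl.2.1),
    (1, c, 2, 0, cl.2.2), (1, c, 2, 1, cl.2.2)]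

/-- number of marks -/
def nK (n : ℕ) : ℕ := 33 * n + 2

/-- multiplicity of the marks -/
def nL (n : ℕ) : ℕ := 40 * n + 1

/-- the list of all labels -/
def vl (φ : N3) : List Lab :=
  ((List.range (nK φ.length)) ×ˢ (List.range (nL φ.length))).map
    (fun p => ((20, p.1, 0, p.2, 0) : Lab)) ++
  (((List.range (3 * φ.length)) ×ˢ (List.range 2)).map (fun p => ((0, p.1, 0, p.2, 0) : Lab)) ++
  (φ.zipIdx.flatMap (fun p => copl p.2 p.1) ++
  (((List.range φ.length) ×ˢ (List.range 4)).map (fun p => ((4, p.1, 0, p.2, 0) : Lab)) ++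
  (((List.range φ.length) ×ˢ ((List.range 3) ×ˢ (List.range 4))).map
    (fun p => ((5, p.1, p.2.1, p.2.2, 0) : Lab)) ++
  ((List.range φ.length) ×ˢ ((List.range 3) ×ˢ (List.range 4))).map
    (fun p => ((8, p.1, p.2.1, p.2.2, 0) : Lab))))))

/-- the reduction -/
noncomputable def red (φ : N3) : List (List Bool) :=
  (vl φ).map fun a => (vl φ).map (gl a)

/-- the variables of a clause -/
def vars (cl : ℕ × ℕ × ℕ) : Fin 3 → ℕ := ![cl.1, cl.2.1, cl.2.2]

theorem vars_lt {φ : N3} (h : BN φ) (c : Fin φ.length) (i : Fin 3) :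
    vars φ[c] i < 3 * φ.length := by
  obtain ⟨h1, h2, h3⟩ := h φ[c] (List.getElem_mem _)
  fin_cases i
  · exact h1
  · exact h2
  · exact h3

/-- the variables, typed -/
def varF (φ : N3) (h : BN φ) (c : Fin φ.length) (i : Fin 3) : Fin (3 * φ.length) :=
  ⟨vars φ[c] i, vars_lt h c i⟩

theorem one3_iff' : ∀ a b c : Bool, one3 a b c = true ↔ one ![a, b, c] := by decide

theorem p13_iff' (φ : N3) (h : BN φ) :
    P13 φ ↔ ∃ α : Fin (3 * φ.length) → Bool, ∀ c, one (fun i => α (varF φ h c i)) := by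
  have key : ∀ (τ : ℕ → Bool) (cl : ℕ × ℕ × ℕ), (fun i => τ (vars cl i)) =
      ![τ cl.1, τ cl.2.1, τ cl.2.2] := by
    intro τ cl
    funext i
    fin_cases i <;> rfl
  constructor
  · rintro ⟨τ, hτ⟩
    refine ⟨fun x => τ x.1, fun c => ?_⟩
    have h1 := (one3_iff' _ _ _).1 (hτ φ[c] (List.getElem_mem _))
    rw [← key] at h1
    exact h1
  · rintro ⟨α, hα⟩
    refine ⟨fun n => if hn : n < 3 * φ.length then α ⟨n, hn⟩ else false, ?_⟩
    intro cl hcl
    obtain ⟨c, hc, rfl⟩ := List.getElem_of_mem hcl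
    rw [one3_iff', ← key (fun n => if hn : n < 3 * φ.length then α ⟨n, hn⟩ else false)]
    have h2 := hα ⟨c, hc⟩
    have h3 : (fun i => α (varF φ h ⟨c, hc⟩ i)) = fun i =>
        if hn : vars φ[c] i < 3 * φ.length then α ⟨vars φ[c] i, hn⟩ else false := by
      funext i
      have h4 : vars φ[c] i < 3 * φ.length := vars_lt h ⟨c, hc⟩ i
      rw [dif_pos h4]
      rfl
    rw [h3] at h2
    exact h2

/-- the elements as a sum of products -/
def coreEquiv (N m : ℕ) : Core N m ≃ (Fin N × Bool) ⊕ ((Fin m × Fin 3 × Bool) ⊕ ((Fin m × Fin 4) ⊕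
    ((Fin m × Fin 3 × Fin 4) ⊕ (Fin m × Fin 3 × Fin 4)))) where
  toFun
    | .var x s => Sum.inl (x, s)
    | .cop c i s => Sum.inr (Sum.inl (c, i, s))
    | .lin c q => Sum.inr (Sum.inr (Sum.inl (c, q)))
    | .vx c k a => Sum.inr (Sum.inr (Sum.inr (Sum.inl (c, k, a))))
    | .eg c k a => Sum.inr (Sum.inr (Sum.inr (Sum.inr (c, k, a))))
  invFun
    | Sum.inl (x, s) => .var x s
    | Sum.inr (Sum.inl (c, i, s)) => .cop c i s
    | Sum.inr (Sum.inr (Sum.inl (c, q))) => .lin c q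
    | Sum.inr (Sum.inr (Sum.inr (Sum.inl (c, k, a)))) => .vx c k a
    | Sum.inr (Sum.inr (Sum.inr (Sum.inr (c, k, a)))) => .eg c k a
  left_inv := by rintro (_ | _ | _ | _ | _) <;> rfl
  right_inv := by rintro (_ | _ | _ | _ | _) <;> rfl

instance (N m : ℕ) : Fintype (Core N m) := Fintype.ofEquiv _ (coreEquiv N m).symm

theorem card_core (N m : ℕ) : Fintype.card (Core N m) = 2 * N + 34 * m := by
  rw [Fintype.card_congr (coreEquiv N m)]
  simp only [Fintype.card_sum, Fintype.card_prod, Fintype.card_fin, Fintype.card_bool]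
  ring

theorem length_vl (φ : N3) :
    (vl φ).length = Fintype.card ((Fin (nK φ.length) × Fin (nL φ.length)) ⊕
      Core (3 * φ.length) φ.length) := by
  have h1 : (φ.zipIdx.flatMap (fun p => copl p.2 p.1)).length = 6 * φ.length := by
    rw [List.length_flatMap]
    simp only [copl, List.length_cons, List.length_nil]
    simp
    ring
  unfold vl
  simp only [List.length_append, List.length_map, List.length_product, List.length_range, h1,
    Fintype.card_sum, Fintype.card_prod, Fintype.card_fin, card_core]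
  ring

theorem lab_mem_vl (φ : N3) (h : BN φ)
    (v : (Fin (nK φ.length) × Fin (nL φ.length)) ⊕ Core (3 * φ.length) φ.length) :
    lab (varF φ h) v ∈ vl φ := by
  unfold vl
  simp only [List.mem_append, List.mem_map]
  rcases v with ⟨i, j⟩ | ⟨x, s⟩ | ⟨c, i, s⟩ | ⟨c, q⟩ | ⟨c, k, a⟩ | ⟨c, k, e⟩
  · exact Or.inl ⟨(i.1, j.1), List.mem_product.2
      ⟨List.mem_range.2 i.2, List.mem_range.2 j.2⟩, rfl⟩
  · exact Or.inr (Or.inl ⟨(x.1, s.toNat), List.mem_product.2
      ⟨List.mem_range.2 x.2, List.mem_range.2 (by cases s <;> decide)⟩, rfl⟩)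
  · refine Or.inr (Or.inr (Or.inl ?_))
    rw [List.mem_flatMap]
    refine ⟨(φ[c], c.1), ?_, ?_⟩
    · rw [List.mem_zipIdx_iff_getElem?]
      simp
    · unfold copl
      simp only [lab]
      fin_cases i <;> cases s <;> simp [varF, vars]
  · exact Or.inr (Or.inr (Or.inr (Or.inl ⟨(c.1, q.1), List.mem_product.2
      ⟨List.mem_range.2 c.2, List.mem_range.2 q.2⟩, rfl⟩)))
  · exact Or.inr (Or.inr (Or.inr (Or.inr (Or.inl ⟨(c.1, k.1, a.1), List.mem_product.2
      ⟨List.mem_range.2 c.2, List.mem_product.2 ⟨List.mem_range.2 k.2, List.mem_range.2 a.2⟩⟩,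
        rfl⟩))))
  · exact Or.inr (Or.inr (Or.inr (Or.inr (Or.inr ⟨(c.1, k.1, e.1), List.mem_product.2
      ⟨List.mem_range.2 c.2, List.mem_product.2 ⟨List.mem_range.2 k.2, List.mem_range.2 e.2⟩⟩,
        rfl⟩))))

theorem kc_lt {N m : ℕ} (h : N = 3 * m) (v : Core N m) : kc v + 2 ≤ nK m := by
  unfold nK
  rcases v with ⟨x, s⟩ | ⟨c, i, s⟩ | ⟨c, q⟩ | ⟨c, k, a⟩ | ⟨c, k, e⟩ <;> simp only [kc] <;> omega

theorem red_iff (φ : N3) (h : BN φ) : P13 φ ↔ MS (red φ) := by
  unfold red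
  rw [ms_list (vl φ) (lab (varF φ h)) (lab_injective _) (lab_mem_vl φ h) (length_vl φ) gl]
  have h1 : (fun a b => gl (lab (varF φ h) a) (lab (varF φ h) b)) =
      ext (nK φ.length) (nL φ.length) kc (gc (varF φ h)) := by
    funext a b
    exact gl_lab _ a b
  rw [h1, ext_iff, core_iff, p13_iff' φ h]
  · rw [card_core, nL]
    omega
  · exact fun v => kc_lt rfl v

end Pool.Agent.T6.H64.MS
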