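import Pool.Agent.H628R3.RO.Defs
import Pool.Agent.H622R2.CoNP

/-!
# Polynomial-time Turing reducibility
-/

set_option autoImplicit false

namespace Pool.Agent.T6.H64.MS

open Pool.Agent.NPC Pool.Agent.H628R3.RO Pool.Agent.H622R2

open Classical in
/-- Polynomial-time Turing reducibility: `L` is decided in polynomial time with an oracle for
`K`. -/
def TuringReduces (L K : Set (List Bool)) : Prop :=
  ∃ F : List Bool → List Bool, IsFP (fun u => decide (u ∈ K)) F ∧ ∀ x, x ∈ L ↔ F x = [true]

theorem run_mono (M : Alg) (A : Oracle) (x : List Bool) : ∀ (n m : ℕ) (a z : List Bool), n ≤ m →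
    M.run A x n a = some z → M.run A x m a = some z := by
  intro n
  induction n with
  | zero => intro m a z _ h; simp [Alg.run] at h
  | succ n ih =>
    intro m a z hm h
    obtain ⟨m, rfl⟩ : ∃ k, m = k + 1 := ⟨m - 1, by omega⟩
    simp only [Alg.run] at h ⊢
    split at h
    · exact h
    · exact h
    · rename_i q heq
      exact ih m _ _ (by omega) h

theorem eval_mono' (p : Polynomial ℕ) {a b : ℕ} (h : a ≤ b) : p.eval a ≤ p.eval b :=
  eval_mono p h

/-- A many-one reduction followed by a Turing reduction. -/
theorem TuringReduces.of_reduces {L L' K : Set (List Bool)} (h : Reduces L L')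
    (h' : TuringReduces L' K) : TuringReduces L K := by
  classical
  obtain ⟨f, hf, hfL⟩ := h
  obtain ⟨F, ⟨M, hM⟩, hF⟩ := h'
  have pf := poly_of_polyTime hf
  have pD := poly_of_polyTime M.poly
  obtain ⟨q, hq⟩ := pf.sz_le
  have hx : Poly (fun y => (unpair y).1) := Poly.fst poly_unpair
  have hw : Poly (fun y => (unpair y).2) := Poly.snd poly_unpair
  have hfx : Poly (fun y => f (unpair y).1) := pf.comp hx
  have hD : Poly (fun y => M.D (pairBits (f (unpair y).1) (unpair y).2)) :=
    pD.comp (poly_pairBits hfx hw)
  let M' : Alg := ⟨_, polyTime_of_poly_list hD,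
    M.p.comp (q.comp (Polynomial.C 4 * Polynomial.X + Polynomial.C 1))⟩
  refine ⟨fun x => F (f x), ⟨M', fun x => ?_⟩, fun x => ?_⟩
  · have h1 : ∀ n a, M'.run (fun u => decide (u ∈ K)) x n a =
        M.run (fun u => decide (u ∈ K)) (f x) n a := by
      intro n
      induction n with
      | zero => intro a; rfl
      | succ n ih =>
        intro a
        have h2 : M'.D (pairBits x a) = M.D (pairBits (f x) a) := by
          change M.D (pairBits (f (unpair (pairBits x a)).1) (unpair (pairBits x a)).2) = _
          rw [unpair_pairBits]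
        simp only [Alg.run, h2, ih]
    have h3 := hM (f x)
    unfold Alg.out at h3 ⊢
    rw [h1]
    refine run_mono M _ _ _ _ _ _ ?_ h3
    change _ ≤ (M.p.comp (q.comp (Polynomial.C 4 * Polynomial.X + Polynomial.C 1))).eval x.length
    rw [Polynomial.eval_comp]
    apply eval_mono
    rw [Polynomial.eval_comp]
    have h3 := length_lt_sz (f x)
    refine h3.le.trans ((hq x).trans (eval_mono _ ?_))
    have h4 := sz_listBool_le x
    simpa using h4
  · rw [hfL x, hF]

/-- Every language is Turing reducible to itself. -/
theorem TuringReduces.refl (K : Set (List Bool)) : TuringReduces K K := by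
  classical
  have hx : Poly (fun y => (unpair y).1) := Poly.fst poly_unpair
  have hw : Poly (fun y => (unpair y).2) := Poly.snd poly_unpair
  have hD : Poly (fun y => if (unpair y).2.length = 0 then false :: (unpair y).1 else
      true :: (unpair y).2) :=
    Poly.ite (Poly.decide_eq (Poly.length hw) (NPC.Poly.const 0))
      (Poly.cons (NPC.Poly.const _) hx) (Poly.cons (NPC.Poly.const _) hw)
  let M : Alg := ⟨_, polyTime_of_poly_list hD, Polynomial.C 2⟩
  refine ⟨fun x => [decide (x ∈ K)], ⟨M, fun x => ?_⟩, fun x => by simp⟩
  have h1 : ∀ a, M.D (pairBits x a) = if a.length = 0 then false :: x else true :: a := by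
    intro a
    change (if (unpair (pairBits x a)).2.length = 0 then
      false :: (unpair (pairBits x a)).1 else true :: (unpair (pairBits x a)).2) = _
    rw [unpair_pairBits]
  have h2 : M.p.eval x.length = 2 := by
    change (Polynomial.C 2 : Polynomial ℕ).eval x.length = 2
    simp
  unfold Alg.out
  rw [h2]
  simp [Alg.run, h1]

/-- Many-one reducibility implies Turing reducibility. -/
theorem TuringReduces.of_manyOne {L K : Set (List Bool)} (h : Reduces L K) : TuringReduces L K :=
  TuringReduces.of_reduces h (TuringReduces.refl K)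

/-- Many-one reducibility is transitive. -/
theorem reduces_trans {L L' L'' : Set (List Bool)} (h : Reduces L L') (h' : Reduces L' L'') :
    Reduces L L'' := by
  obtain ⟨f, hf, hfL⟩ := h
  obtain ⟨g, hg, hgL⟩ := h'
  exact ⟨fun x => g (f x), H642R2.TMSim.polyTime_comp hg hf, fun x => (hfL x).trans (hgL _)⟩

end Pool.Agent.T6.H64.MS
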